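import Pool.Agent.Y773.HK.Ent

/-!
# Continuation with at most a simple pole at `s = 1`
-/

set_option autoImplicit false
set_option linter.unusedSectionVars false

open NumberField Complex Filter Topology MeasureTheory Set
open NumberField.Units NumberField.Units.dirichletUnitTheorem

namespace Pool.Agent.Y772.NV

open Pool.Agent.Y773

/-- as `fam_fe`, without the condition on the constant term -/
theorem fam_pole (K : Type) [Field K] [NumberField K] [IsTotallyReal K]
    (𝔟 : ClassGroup (𝓞 K) → Ideal (𝓞 K)) (h𝔟 : Reps 𝔟) (e : InfinitePlace K → ℕ)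
    (η : Ideal (𝓞 K) →*₀ ℂ) (hN : ∀ c, Nice e (Ps η e (𝔟 c))) (m D : ℕ) (hm : 0 < m) (hD : 0 < D)
    (hDD : (D : 𝓞 K) ∈ differentIdeal ℤ (𝓞 K))
    (hper : ∀ c (x z : 𝓞 K), Ps η e (𝔟 c) (x + m * z) = Ps η e (𝔟 c) x) :
    ∃ H : ℂ → ℂ, Differentiable ℂ H ∧ ∀ s : ℂ, 1 < s.re →
      H s = (s - 1) * mellin (Ftot η e 𝔟) s := by
  classical
  obtain ⟨V, hV0, hV⟩ := hf_fe K
  have he : ∀ w, e w ≤ 1 := (hN (Classical.arbitrary _)).he
  have hNpos : ∀ c, (0 : ℝ) < (Ideal.absNorm (𝔟 c) : ℝ) := by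
    intro c
    have : Ideal.absNorm (𝔟 c) ≠ 0 := by
      rw [Ne, Ideal.absNorm_eq_zero_iff]
      exact h𝔟.ne_bot c
    exact_mod_cast Nat.pos_of_ne_zero this
  have hmD : (0 : ℝ) < ((m * D : ℕ) : ℝ) := by
    have : 0 < m * D := Nat.mul_pos hm hD
    exact_mod_cast this
  choose B hB using fun c => (hN c).bdd
  have hBn : ∀ c, 0 ≤ B c := fun c => (norm_nonneg _).trans (hB c 0)
  have hE : ∀ c, Eqv e (Ps η e (𝔟 c)) := fun c => (hN c).unit
  have hE' : ∀ c, Eqv e (FT D m (Ps η e (𝔟 c))) := fun c => FT_eqv (hE c) hm hD (hper c)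
  have hBF := fun c => norm_FT_le (D := D) hm (hBn c) (hB c)
  have hN' : ∀ c, Nice e (rz (FT D m (Ps η e (𝔟 c)))) := fun c => rz_nice he (hBF c) (hE' c)
  have hBF' : ∀ c x, ‖rz (FT D m (Ps η e (𝔟 c))) x‖ ≤
      Nat.card (𝓞 K ⧸ Ideal.span {(m : 𝓞 K)}) * B c := by
    intro c x
    unfold rz
    split_ifs
    · rw [norm_zero]
      have := hBn c
      positivity
    · exact hBF c x
  set κ : ℂ := ((V⁻¹ : ℝ) : ℂ) * ((m : ℂ) ^ (Module.finrank ℚ K))⁻¹ * (-I) ^ (∑ w, e w) with hκ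
  have hκ0 : κ ≠ 0 := by
    rw [hκ]
    refine mul_ne_zero (mul_ne_zero ?_ ?_) ?_
    · exact_mod_cast (inv_pos.mpr hV0).ne'
    · refine inv_ne_zero (pow_ne_zero _ ?_)
      exact_mod_cast hm.ne'
    · exact pow_ne_zero _ (neg_ne_zero.mpr Complex.I_ne_zero)
  set M : ℝ := ((m * D : ℕ) : ℝ) ^ (Module.finrank ℚ K) with hM
  have hM0 : 0 < M := by positivity
  set g0c : ℂ := ∑ c, (Ideal.absNorm (𝔟 c) : ℂ) * (FT D m (Ps η e (𝔟 c)) 0 *
          ((G0 e (fun _ => 0) : ℝ) : ℂ)) with hg0c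
  have hfg : ∀ t : ℝ, 0 < t → Ftot η e 𝔟 (1 / t) =
      (κ * ((t ^ (1 : ℝ) : ℝ) : ℂ)) • (Gtot η e 𝔟 m D t + g0c) := by
    intro t ht
    rw [Real.rpow_one, smul_eq_mul]
    unfold Ftot Gtot
    have h1 : ∀ c, hf e (Ps η e (𝔟 c)) ((Ideal.absNorm (𝔟 c) : ℝ)⁻¹ * (1 / t)) =
        κ * t * ((Ideal.absNorm (𝔟 c) : ℂ) * (FT D m (Ps η e (𝔟 c)) 0 *
          ((G0 e (fun _ => 0) : ℝ) : ℂ))) +
        κ * t * ((Ideal.absNorm (𝔟 c) : ℂ) * hf e (rz (FT D m (Ps η e (𝔟 c))))
          (t * Ideal.absNorm (𝔟 c) / M)) := by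
      intro c
      have h2 : (Ideal.absNorm (𝔟 c) : ℝ)⁻¹ * (1 / t) = 1 / (t * Ideal.absNorm (𝔟 c)) := by
        have := (hNpos c).ne'
        field_simp
      rw [h2, hV e he _ (B c) (hB c) (hE c) m D hm hD hDD (hper c) _ (mul_pos ht (hNpos c)),
        hf_rz he (hBF c) (hBF' c), ← hκ, ← hM]
      push_cast
      ring
    simp_rw [h1]
    rw [Finset.sum_add_distrib, ← Finset.mul_sum, ← Finset.mul_sum, mul_add, add_comm]
  let P : WeakFEPair ℂ :=
    { f := Ftot η e 𝔟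
      g := fun t => Gtot η e 𝔟 m D t + g0c
      k := 1
      ε := κ
      f₀ := 0
      g₀ := g0c
      hf_int := by
        refine ContinuousOn.locallyIntegrableOn ?_ measurableSet_Ioi
        unfold Ftot
        exact continuousOn_finsetSum _ fun c _ => locInt_hf (hN c) (inv_pos.mpr (hNpos c))
      hg_int := by
        refine ContinuousOn.locallyIntegrableOn ?_ measurableSet_Ioi
        refine ContinuousOn.add ?_ continuousOn_const
        unfold Gtot
        refine continuousOn_finsetSum _ fun c _ => continuousOn_const.mul ?_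
        have := locInt_hf (hN' c) (a := Ideal.absNorm (𝔟 c) / M) (div_pos (hNpos c) hM0)
        refine this.congr fun t _ => ?_
        simp only
        congr 1
        ring
      hk := one_pos
      hε := hκ0
      h_feq := fun x hx => hfg x hx
      hf_top := fun r => by
        simp only [sub_zero]
        unfold Ftot
        refine (Asymptotics.IsBigO.sum (s := Finset.univ)
          (A := fun c t => hf e (Ps η e (𝔟 c)) ((Ideal.absNorm (𝔟 c) : ℝ)⁻¹ * t))
          fun c _ => hf_decay' (hN c) (inv_pos.mpr (hNpos c)) r).congr_left fun t => ?_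
        rw [Finset.sum_apply]
      hg_top := fun r => by
        simp only [add_sub_cancel_right]
        unfold Gtot
        refine (Asymptotics.IsBigO.sum (s := Finset.univ)
          (A := fun c t => (Ideal.absNorm (𝔟 c) : ℂ) * hf e (rz (FT D m (Ps η e (𝔟 c))))
            (t * Ideal.absNorm (𝔟 c) / M)) fun c _ => Asymptotics.IsBigO.const_mul_left ?_ _).congr_left
              fun t => by rw [Finset.sum_apply]
        have := hf_decay' (hN' c) (a := Ideal.absNorm (𝔟 c) / M) (div_pos (hNpos c) hM0) r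
        refine this.congr_left fun t => ?_
        congr 1
        ring }
  have hk : P.k = 1 := rfl
  have hf0 : P.f₀ = 0 := rfl
  have hg0 : P.g₀ = g0c := rfl
  have hε : P.ε = κ := rfl
  have hPf : P.f = Ftot η e 𝔟 := rfl
  refine ⟨fun s => (s - 1) * P.Λ₀ s + κ * g0c,
    ((differentiable_id.sub_const 1).mul P.differentiable_Λ₀).add_const _, fun s hs => ?_⟩
  have h1 := P.hasMellin (s := s) (by rw [hk]; exact hs)
  have h2 : mellin (Ftot η e 𝔟) s = P.Λ s := by
    rw [← h1.2, hPf, hf0]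
    simp only [sub_zero]
  have h3 : s - 1 ≠ 0 := by
    intro h
    have : s = 1 := by linear_combination h
    rw [this] at hs
    simp at hs
  have h4 : (1 : ℂ) - s ≠ 0 := by
    intro h
    apply h3
    linear_combination -h
  simp only
  rw [h2, P.Λ₀_eq s, hk, hf0, hg0, hε]
  simp only [smul_zero, add_zero, smul_eq_mul, ofReal_one]
  field_simp
  ring

variable {K : Type} [Field K] [NumberField K] [IsTotallyReal K]

/-- continuation of `(s - 1) L(s, η)` -/
theorem LI_pole {𝔪 : Ideal (𝓞 K)} {e : InfinitePlace K → ℕ} {η : Ideal (𝓞 K) →*₀ ℂ}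
    (h : IsModChar 𝔪 e η) :
    ∃ F : ℂ → ℂ, Differentiable ℂ F ∧ (∀ s : ℂ, 1 < s.re → F s = (s - 1) * LI η s) ∧
      ((∀ w, e w = 0) → F (-2) = 0) := by
  obtain ⟨C, hC, hmel⟩ := mellin_Ftot K
  have hN : ∀ c, Nice e (Ps η e (rp K c)) := fun c => h.nice (rp_ne_bot c)
  obtain ⟨H, hH, hHs⟩ := fam_pole K (rp K) reps_rp e η hN (mm (rp K) 𝔪) (Dd K)
    (mm_pos rp_ne_bot h.ne_bot) Dd_pos Dd_mem (fun c => h.per_m (rp_ne_bot c) (mm_mem _ _ c))
  refine ⟨fun s => (C : ℂ)⁻¹ * (H s * ∏ w, (Complex.Gammaℝ (s + e w))⁻¹),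
    (hH.mul (differentiable_gam e)).const_mul _, fun s hs => ?_, fun h0 => ?_⟩
  · simp only
    rw [hHs s hs, (hmel (rp K) reps_rp e η h.norm_le_one hN s hs).2, Finset.prod_inv_distrib]
    have h3 := gam_ne_zero e (K := K) (s := s) (by linarith)
    have hC' : (C : ℂ) ≠ 0 := by exact_mod_cast hC.ne'
    field_simp
  · obtain ⟨w⟩ : Nonempty (InfinitePlace K) := inferInstance
    have h1 : ∏ w, (Complex.Gammaℝ (-2 + e w))⁻¹ = 0 := by
      refine Finset.prod_eq_zero (Finset.mem_univ w) ?_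
      rw [h0 w, Nat.cast_zero, add_zero, inv_eq_zero, Complex.Gammaℝ_eq_zero_iff]
      exact ⟨1, by norm_num⟩
    simp only [h1, mul_zero]

end Pool.Agent.Y772.NV
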