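import Mathlib

/-!
# A version of Landau's lemma for the logarithmic derivative
-/

set_option autoImplicit false

open Complex Filter Topology
open scoped ComplexOrder

namespace Pool.Agent.Y772.NV

/-- if `f' = - D f` near the real point `c` and `D` is completely monotone at `c` then so is
`f / f(c)` -/
lemma alternating {f D : ℂ → ℂ} (hf : Differentiable ℂ f) {c : ℝ} (hD : AnalyticAt ℂ D c)
    (hc : f c ≠ 0) (h : ∀ᶠ z in 𝓝 (c : ℂ), deriv f z = -(D z * f z))
    (hpos : ∀ k : ℕ, 0 ≤ (-1) ^ k * iteratedDeriv k D c) (n : ℕ) :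
    0 ≤ (-1) ^ n * (iteratedDeriv n f c / f c) := by
  induction n using Nat.strong_induction_on with
  | _ n ih =>
    rcases n with _ | n
    · rw [pow_zero, one_mul, iteratedDeriv_zero, div_self hc]
      exact zero_le_one
    · have h1 : iteratedDeriv (n + 1) f c = iteratedDeriv n (fun z => -(D z * f z)) c := by
        rw [iteratedDeriv_succ']
        exact Filter.EventuallyEq.iteratedDeriv_eq n h
      have h2 : iteratedDeriv n (fun z => -(D z * f z)) c =
          -∑ i ∈ Finset.range (n + 1), (n.choose i : ℂ) * iteratedDeriv i D c *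
            iteratedDeriv (n - i) f c := by
        have h3 : (fun z => -(D z * f z)) = -(D * f) := rfl
        rw [h3, iteratedDeriv_neg, iteratedDeriv_mul hD.contDiffAt hf.contDiff.contDiffAt]
      rw [h1, h2]
      have h4 : (-1 : ℂ) ^ (n + 1) * ((-∑ i ∈ Finset.range (n + 1), (n.choose i : ℂ) *
          iteratedDeriv i D c * iteratedDeriv (n - i) f c) / f c) =
          ∑ i ∈ Finset.range (n + 1), (n.choose i : ℂ) * ((-1) ^ i * iteratedDeriv i D c) *
            ((-1) ^ (n - i) * (iteratedDeriv (n - i) f c / f c)) := by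
        rw [pow_succ, neg_div, mul_assoc, neg_one_mul, neg_neg, Finset.sum_div, Finset.mul_sum]
        refine Finset.sum_congr rfl fun i hi => ?_
        have hi' : i ≤ n := Nat.lt_succ_iff.1 (Finset.mem_range.1 hi)
        have h5 : (-1 : ℂ) ^ n = (-1) ^ i * (-1) ^ (n - i) := by
          rw [← pow_add, Nat.add_sub_cancel' hi']
        rw [h5]
        ring
      rw [h4]
      refine Finset.sum_nonneg fun i hi => ?_
      refine mul_nonneg (mul_nonneg ?_ (hpos i)) (ih (n - i) (by omega))
      exact_mod_cast Nat.cast_nonneg (α := ℝ) _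

theorem landau {f D : ℂ → ℂ} (hf : Differentiable ℂ f) {c : ℝ} (hD : AnalyticAt ℂ D c)
    (hc : f c ≠ 0) (h : ∀ᶠ z in 𝓝 (c : ℂ), deriv f z = -(D z * f z))
    (hpos : ∀ k : ℕ, 0 ≤ (-1) ^ k * iteratedDeriv k D c) {y : ℝ} (hy : y ≤ c) : f y ≠ 0 := by
  intro h0
  have h1 : Differentiable ℂ fun z => (f c)⁻¹ * f z := hf.const_mul _
  have h2 := h1.apply_le_of_iteratedDeriv_alternating (c := c) (z := y) (fun n _ => ?_)
    (by exact_mod_cast hy)
  · simp only [h0, mul_zero] at h2
    rw [inv_mul_cancel₀ hc] at h2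
    have h5 := (Complex.le_def.1 h2).1
    norm_num at h5
  · have h3 := alternating hf hD hc h hpos n
    have h4 : iteratedDeriv n (fun z => (f c)⁻¹ * f z) c = iteratedDeriv n f c / f c := by
      rw [iteratedDeriv_const_mul_field, div_eq_inv_mul]
    rw [h4]
    exact h3

end Pool.Agent.Y772.NV
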