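import Pool.Agent.Y772.NV.Ord

/-!
# Non-vanishing on the line `Re s = 1`
-/

set_option autoImplicit false

open NumberField Complex Filter Topology Ideal
open scoped ArithmeticFunction.vonMangoldt ComplexOrder

namespace Pool.Agent.Y772.NV

open Pool.Agent.Y773

variable {K : Type} [Field K] [NumberField K]

/-- what is needed of `η` -/
structure NVData (η : Ideal (𝓞 K) →*₀ ℂ) : Prop where
  unit : ∀ 𝔞, η 𝔞 = 0 ∨ ‖η 𝔞‖ = 1
  pab : ∃ G : ℂ → ℂ, Differentiable ℂ G ∧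
    (∀ s : ℂ, 1 < s.re → G s = (s - 1) * LI (ab η) s) ∧ G (-2) = 0
  peta : ∃ G : ℂ → ℂ, Differentiable ℂ G ∧ ∀ s : ℂ, 1 < s.re → G s = (s - 1) * LI η s
  psq : ∃ G : ℂ → ℂ, Differentiable ℂ G ∧ ∀ s : ℂ, 1 < s.re → G s = (s - 1) * LI (sq η) s
  psq' : (∀ 𝔞, sq η 𝔞 = ab η 𝔞) ∨
    ∃ G : ℂ → ℂ, Differentiable ℂ G ∧ ∀ s : ℂ, 1 < s.re → G s = LI (sq η) s

/-- what is needed of `η` at the point `1` -/
structure NVBase (η : Ideal (𝓞 K) →*₀ ℂ) : Prop where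
  unit : ∀ 𝔞, η 𝔞 = 0 ∨ ‖η 𝔞‖ = 1
  pab : ∃ G : ℂ → ℂ, Differentiable ℂ G ∧
    (∀ s : ℂ, 1 < s.re → G s = (s - 1) * LI (ab η) s) ∧ G (-2) = 0
  peta : ∃ G : ℂ → ℂ, Differentiable ℂ G ∧ ∀ s : ℂ, 1 < s.re → G s = (s - 1) * LI η s

lemma NVData.base {η : Ideal (𝓞 K) →*₀ ℂ} (h : NVData η) : NVBase η := ⟨h.unit, h.pab, h.peta⟩

lemma NVBase.le {η : Ideal (𝓞 K) →*₀ ℂ} (h : NVBase η) (𝔞 : Ideal (𝓞 K)) : ‖η 𝔞‖ ≤ 1 := by
  rcases h.unit 𝔞 with h1 | h1
  · rw [h1, norm_zero]; exact zero_le_one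
  · exact h1.le

lemma ab_one {η : Ideal (𝓞 K) →*₀ ℂ} {𝔞 : Ideal (𝓞 K)} (h : ‖η 𝔞‖ = 1) : ab η 𝔞 = 1 := by
  have h1 : ab η 𝔞 = η 𝔞 * (starRingEnd ℂ) (η 𝔞) := rfl
  rw [h1, Complex.mul_conj, Complex.normSq_eq_norm_sq, h]
  simp

lemma ab_zero {η : Ideal (𝓞 K) →*₀ ℂ} {𝔞 : Ideal (𝓞 K)} (h : η 𝔞 = 0) : ab η 𝔞 = 0 := by
  have h1 : ab η 𝔞 = η 𝔞 * (starRingEnd ℂ) (η 𝔞) := rfl
  rw [h1, h, zero_mul]

lemma sq_zero' {η : Ideal (𝓞 K) →*₀ ℂ} {𝔞 : Ideal (𝓞 K)} (h : η 𝔞 = 0) : sq η 𝔞 = 0 := by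
  have h1 : sq η 𝔞 = η 𝔞 * η 𝔞 := rfl
  rw [h1, h, zero_mul]

lemma three_four_one {η : Ideal (𝓞 K) →*₀ ℂ} (h : ∀ 𝔞, η 𝔞 = 0 ∨ ‖η 𝔞‖ = 1) (t : ℝ)
    (𝔞 : Ideal (𝓞 K)) : 0 ≤ 3 * (ab η 𝔞).re + 4 * (sh t η 𝔞).re + (sq (sh t η) 𝔞).re := by
  rcases h 𝔞 with h1 | h1
  · have h2 : sh t η 𝔞 = 0 := by
      rw [← norm_eq_zero, norm_sh, h1, norm_zero]
    rw [ab_zero h1, h2, sq_zero' h2]
    simp
  · have h2 : ‖sh t η 𝔞‖ = 1 := by rw [norm_sh, h1]
    have h3 : sq (sh t η) 𝔞 = sh t η 𝔞 * sh t η 𝔞 := rfl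
    have h4 : (sh t η 𝔞).re * (sh t η 𝔞).re + (sh t η 𝔞).im * (sh t η 𝔞).im = 1 := by
      rw [← Complex.normSq_apply, Complex.normSq_eq_norm_sq, h2]
      norm_num
    rw [ab_one h1, h3, mul_re, one_re]
    nlinarith [sq_nonneg (1 + (sh t η 𝔞).re)]

lemma order_le (hD : StDirK) {η : Ideal (𝓞 K) →*₀ ℂ} (h : NVBase η) {t : ℝ} {F : ℂ → ℂ}
    (hF : AnalyticAt ℂ F (1 + (t : ℂ) * I))
    (hFL : ∀ᶠ s in 𝓝 (1 + (t : ℂ) * I), 1 < s.re → F s = LI η s)
    {F₂ : ℂ → ℂ} (hF₂ : AnalyticAt ℂ F₂ 1)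
    (hFL₂ : ∀ᶠ s in 𝓝 (1 : ℂ), 1 < s.re → F₂ s = LI (sq (sh t η)) s) : F (1 + (t : ℂ) * I) ≠ 0 := by
  obtain ⟨G₁, hG₁, hG₁s, -⟩ := h.pab
  have hshn : ∀ 𝔞, ‖sh t η 𝔞‖ ≤ 1 := fun 𝔞 => by rw [norm_sh]; exact h.le 𝔞
  obtain ⟨m₁, -, -, hl₁⟩ := lim_order2 hD (ab η) (ab_norm η h.le) G₁ (hG₁.analyticAt 1) 1 (by
    refine Eventually.of_forall fun z hz => ?_
    rw [pow_one, hG₁s z hz, mul_comm])
  have hadd : ContinuousAt (fun s : ℂ => s + (t : ℂ) * I) 1 := by fun_prop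
  obtain ⟨m, hm, -, hl⟩ := lim_order2 hD (sh t η) hshn (fun s => F (s + (t : ℂ) * I))
    (by
      have h1 : AnalyticAt ℂ (fun s : ℂ => s + (t : ℂ) * I) 1 := by fun_prop
      exact hF.comp_of_eq h1 rfl) 0 (by
    filter_upwards [hadd.tendsto.eventually hFL] with z hz hz1
    rw [pow_zero, mul_one, LI_sh, hz (by simpa using hz1)])
  obtain ⟨m₂, -, -, hl₂⟩ := lim_order2 hD (sq (sh t η)) (sq_norm _ hshn) F₂ hF₂ 0 (by
    filter_upwards [hFL₂] with z hz hz1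
    rw [pow_zero, mul_one, hz hz1])
  obtain ⟨A, hA, hDK⟩ := hD K
  have hb := fun (φ : Ideal (𝓞 K) →*₀ ℂ) (hφ : ∀ 𝔞, ‖φ 𝔞‖ ≤ 1) => (hDK φ hφ).2.2.2.2.2.2.1
  have hlim := ((hl₁.const_mul 3).add (hl.const_mul 4)).add hl₂
  have hge : 0 ≤ 3 * (((1 : ℕ) : ℝ) - m₁) + 4 * (((0 : ℕ) : ℝ) - m) + (((0 : ℕ) : ℝ) - m₂) := by
    refine ge_of_tendsto hlim ?_
    filter_upwards [self_mem_nhdsWithin] with σ hσ
    have hσ' : (0 : ℝ) < σ := hσ
    have s₁ := summable_bdd hσ' (fun n => (cc (ab η) n).re) _ fun n =>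
      (abs_re_le_norm _).trans (hb _ (ab_norm η h.le) n)
    have s₂ := summable_bdd hσ' (fun n => (cc (sh t η) n).re) _ fun n =>
      (abs_re_le_norm _).trans (hb _ hshn n)
    have s₃ := summable_bdd hσ' (fun n => (cc (sq (sh t η)) n).re) _ fun n =>
      (abs_re_le_norm _).trans (hb _ (sq_norm _ hshn) n)
    have e : 3 * (σ * ∑' n : ℕ, (cc (ab η) n).re * Λ n * (n : ℝ) ^ (-(1 + σ))) +
        4 * (σ * ∑' n : ℕ, (cc (sh t η) n).re * Λ n * (n : ℝ) ^ (-(1 + σ))) +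
        σ * ∑' n : ℕ, (cc (sq (sh t η)) n).re * Λ n * (n : ℝ) ^ (-(1 + σ)) =
        σ * ∑' n : ℕ, (3 * ((cc (ab η) n).re * Λ n * (n : ℝ) ^ (-(1 + σ))) +
          4 * ((cc (sh t η) n).re * Λ n * (n : ℝ) ^ (-(1 + σ))) +
          (cc (sq (sh t η)) n).re * Λ n * (n : ℝ) ^ (-(1 + σ))) := by
      rw [((s₁.mul_left 3).add (s₂.mul_left 4)).tsum_add s₃,
        (s₁.mul_left 3).tsum_add (s₂.mul_left 4), tsum_mul_left, tsum_mul_left]
      ring
    rw [e]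
    refine mul_nonneg hσ'.le (tsum_nonneg fun n => ?_)
    have hR : 0 ≤ Λ n * (n : ℝ) ^ (-(1 + σ)) :=
      mul_nonneg ArithmeticFunction.vonMangoldt_nonneg (Real.rpow_nonneg (Nat.cast_nonneg n) _)
    have e2 : 3 * ((cc (ab η) n).re * Λ n * (n : ℝ) ^ (-(1 + σ))) +
          4 * ((cc (sh t η) n).re * Λ n * (n : ℝ) ^ (-(1 + σ))) +
          (cc (sq (sh t η)) n).re * Λ n * (n : ℝ) ^ (-(1 + σ)) =
        (3 * (cc (ab η) n).re + 4 * (cc (sh t η) n).re + (cc (sq (sh t η)) n).re) *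
          (Λ n * (n : ℝ) ^ (-(1 + σ))) := by ring
    rw [e2]
    refine mul_nonneg ?_ hR
    rw [cc_re, cc_re, cc_re, ← mul_div_assoc, ← mul_div_assoc, ← add_div, ← add_div]
    refine div_nonneg ?_ ArithmeticFunction.vonMangoldt_nonneg
    rw [Finset.mul_sum, Finset.mul_sum, ← Finset.sum_add_distrib, ← Finset.sum_add_distrib]
    refine Finset.sum_nonneg fun 𝔞 _ => ?_
    have e3 : 3 * (VM 𝔞 * (ab η 𝔞).re) + 4 * (VM 𝔞 * (sh t η 𝔞).re) +
        VM 𝔞 * (sq (sh t η) 𝔞).re =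
        VM 𝔞 * (3 * (ab η 𝔞).re + 4 * (sh t η 𝔞).re + (sq (sh t η) 𝔞).re) := by ring
    rw [e3]
    exact mul_nonneg (VM_nonneg 𝔞) (three_four_one h.unit t 𝔞)
  apply hm
  by_contra hne
  have h1 : (1 : ℝ) ≤ m := by exact_mod_cast Nat.one_le_iff_ne_zero.2 hne
  have h2 : (0 : ℝ) ≤ m₁ := Nat.cast_nonneg _
  have h3 : (0 : ℝ) ≤ m₂ := Nat.cast_nonneg _
  push_cast at hge
  linarith

lemma landau_case (hD : StDirK) {η : Ideal (𝓞 K) →*₀ ℂ} (h : NVBase η)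
    (hre : ∀ 𝔞, sq η 𝔞 = ab η 𝔞) {F : ℂ → ℂ} (hF : AnalyticAt ℂ F 1)
    (hFL : ∀ᶠ s in 𝓝 (1 : ℂ), 1 < s.re → F s = LI η s) : F 1 ≠ 0 := by
  intro hF0
  obtain ⟨G₁, hG₁, hG₁s, hG₁0⟩ := h.pab
  obtain ⟨G₂, hG₂, hG₂s⟩ := h.peta
  obtain ⟨A, hA, hDK⟩ := hD K
  obtain ⟨-, hd1, hn1, hl1, -, -, hc1, -, -, -, -⟩ := hDK (ab η) (ab_norm η h.le)
  obtain ⟨-, hd2, hn2, hl2, -, -, hc2, -, -, -, -⟩ := hDK η h.le
  -- `G₂ = (s - 1) F` near `1`
  have hGF : ∀ᶠ s in 𝓝 (1 : ℂ), G₂ s = (s - 1) * F s := by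
    have ha : AnalyticAt ℂ (fun s : ℂ => (s - 1) * F s) 1 :=
      (analyticAt_id.sub analyticAt_const).mul hF
    refine ((hG₂.analyticAt 1).frequently_eq_iff_eventually_eq ha).1 ?_
    have ht : Tendsto (fun σ : ℝ => (1 : ℂ) + (σ : ℂ)) (𝓝[>] 0) (𝓝[≠] (1 : ℂ)) := by
      refine tendsto_nhdsWithin_iff.2 ⟨?_, ?_⟩
      · have : Continuous (fun σ : ℝ => (1 : ℂ) + (σ : ℂ)) := by fun_prop
        have h0 := this.tendsto 0
        simp only [Complex.ofReal_zero, add_zero] at h0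
        exact h0.mono_left nhdsWithin_le_nhds
      · filter_upwards [self_mem_nhdsWithin] with σ hσ
        have hσ' : (0 : ℝ) < σ := hσ
        intro h9
        have h10 : (σ : ℂ) = 0 := by
          have : (1 : ℂ) + σ = 1 := h9
          linear_combination this
        exact hσ'.ne' (by exact_mod_cast h10)
    refine ht.frequently (Eventually.frequently ?_)
    filter_upwards [(ht.mono_right nhdsWithin_le_nhds).eventually hFL, self_mem_nhdsWithin]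
      with σ h1 hσ
    have hσ' : (0 : ℝ) < σ := hσ
    have hr : 1 < ((1 : ℂ) + (σ : ℂ)).re := by
      rw [add_re, one_re, ofReal_re]; linarith
    rw [hG₂s _ hr, h1 hr]
  have hG21 : G₂ 1 = 0 := by
    have := hGF.self_of_nhds
    rw [sub_self, zero_mul] at this
    exact this
  have hG2d : deriv G₂ 1 = 0 := by
    have h1 : deriv G₂ 1 = deriv (fun s : ℂ => (s - 1) * F s) 1 := Filter.EventuallyEq.deriv_eq hGF
    have h2 : HasDerivAt (fun s : ℂ => s - 1) 1 1 := (hasDerivAt_id (1 : ℂ)).sub_const 1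
    have h3 := (h2.mul hF.differentiableAt.hasDerivAt).deriv
    have h4 : deriv (fun s : ℂ => (s - 1) * F s) 1 = 1 * F 1 + (1 - 1) * deriv F 1 := h3
    rw [h1, h4, hF0]
    simp
  set f : ℂ → ℂ := fun s => G₁ s * dslope (dslope G₂ 1) 1 s with hf
  have hdf : Differentiable ℂ f := by
    refine hG₁.mul ?_
    rw [← differentiableOn_univ, Complex.differentiableOn_dslope univ_mem,
      Complex.differentiableOn_dslope univ_mem]
    exact hG₂.differentiableOn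
  have hfs : ∀ s : ℂ, 1 < s.re → f s = LI (ab η) s * LI η s := by
    intro s hs
    have hs1 : s ≠ 1 := by
      rintro rfl
      simp at hs
    have hs2 : s - 1 ≠ 0 := sub_ne_zero.2 hs1
    simp only [hf]
    rw [dslope_of_ne _ hs1, slope_def_field, dslope_same, hG2d, sub_zero, dslope_of_ne _ hs1,
      slope_def_field, hG21, sub_zero, hG₁s s hs, hG₂s s hs]
    field_simp
  set a : ℕ → ℂ := fun n => (cc (ab η) n + cc η n) * Λ n with ha
  have ha0 : 0 ≤ a := by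
    intro n
    have hz : a n = ((((cc (ab η) n).re + (cc η n).re) * Λ n : ℝ) : ℂ) := by
      apply Complex.ext
      · simp only [ha]
        rw [Complex.re_mul_ofReal, add_re, ofReal_re]
      · simp only [ha]
        rw [Complex.im_mul_ofReal, add_im, ofReal_im, cc_im, cc_im, ← add_div,
          ← Finset.sum_add_distrib]
        rw [Finset.sum_eq_zero, zero_div, zero_mul]
        intro 𝔞 _
        have h1 : (ab η 𝔞).im = 0 := by
          rcases h.unit 𝔞 with h1 | h1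
          · rw [ab_zero h1]; simp
          · rw [ab_one h1]; simp
        have h2 : (η 𝔞).im = 0 := by
          rcases h.unit 𝔞 with h2 | h2
          · rw [h2]; simp
          · have h3 : η 𝔞 * η 𝔞 = η 𝔞 * (starRingEnd ℂ) (η 𝔞) := hre 𝔞
            have h4 : η 𝔞 ≠ 0 := by
              intro h5
              rw [h5] at h2
              simp at h2
            have h5 := mul_left_cancel₀ h4 h3
            have h6 := congrArg Complex.im h5
            rw [conj_im] at h6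
            linarith
        rw [h1, h2]
        simp
    have h0 : (0 : ℕ → ℂ) n = 0 := rfl
    rw [h0, hz, Complex.zero_le_real]
    refine mul_nonneg ?_ ArithmeticFunction.vonMangoldt_nonneg
    rw [cc_re, cc_re, ← add_div, ← Finset.sum_add_distrib]
    refine div_nonneg (Finset.sum_nonneg fun 𝔞 _ => ?_) ArithmeticFunction.vonMangoldt_nonneg
    rw [← mul_add]
    refine mul_nonneg (VM_nonneg 𝔞) ?_
    rcases h.unit 𝔞 with h1 | h1
    · rw [ab_zero h1, h1]; simp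
    · rw [ab_one h1, one_re]
      have := (abs_le.1 (abs_re_le_norm (η 𝔞))).1
      rw [h1] at this
      linarith
  have hsum : ∀ s : ℂ, 1 < s.re → LSeriesSummable a s := by
    intro s hs
    have h1 := (ArithmeticFunction.LSeriesSummable_vonMangoldt (s := s) hs).norm
    refine Summable.of_norm_bounded (h1.mul_left ((Module.finrank ℚ K : ℝ) + Module.finrank ℚ K))
      fun n => ?_
    rw [LSeries.norm_term_eq, LSeries.norm_term_eq]
    rcases eq_or_ne n 0 with rfl | hn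
    · simp
    · rw [if_neg hn, if_neg hn, ← mul_div_assoc]
      refine div_le_div_of_nonneg_right ?_ (Real.rpow_nonneg (Nat.cast_nonneg n) _)
      simp only [ha]
      rw [norm_mul]
      refine mul_le_mul_of_nonneg_right ?_ (norm_nonneg _)
      exact (norm_add_le _ _).trans (add_le_add (hc1 n) (hc2 n))
  have habs : LSeries.abscissaOfAbsConv a < (2 : ℝ) := by
    have h1 : LSeries.abscissaOfAbsConv a ≤ ((3 / 2 : ℝ) : EReal) := by
      have := (hsum ((3 / 2 : ℝ) : ℂ) (by rw [ofReal_re]; norm_num)).abscissaOfAbsConv_le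
      simpa using this
    refine h1.trans_lt ?_
    exact_mod_cast (by norm_num : (3 / 2 : ℝ) < 2)
  have hDval : ∀ s : ℂ, 1 < s.re → LSeries a s =
      -(deriv (LI (ab η)) s / LI (ab η) s) - deriv (LI η) s / LI η s := by
    intro s hs
    rw [hl1 s hs, hl2 s hs, neg_neg, sub_neg_eq_add]
    have hts : ∀ (c : ℕ → ℂ) (B : ℝ), (∀ n, ‖c n‖ ≤ B) →
        Summable fun n : ℕ => c n * (Λ n : ℂ) * (n : ℂ) ^ (-s) := by
      intro c B hc
      have h1 := (ArithmeticFunction.LSeriesSummable_vonMangoldt (s := s) hs).norm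
      refine Summable.of_norm_bounded (h1.mul_left B) fun n => ?_
      rw [LSeries.norm_term_eq, norm_mul, norm_mul]
      rcases eq_or_ne n 0 with rfl | hn
      · simp
      · rw [if_neg hn, Complex.norm_natCast_cpow_of_pos (Nat.pos_of_ne_zero hn), neg_re,
          Real.rpow_neg (Nat.cast_nonneg n), div_eq_mul_inv, mul_assoc]
        exact mul_le_mul_of_nonneg_right (hc n) (by positivity)
    rw [← (hts _ _ hc1).tsum_add (hts _ _ hc2)]
    unfold LSeries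
    refine tsum_congr fun n => ?_
    rcases eq_or_ne n 0 with rfl | hn
    · simp
    · rw [LSeries.term_of_ne_zero hn, Complex.cpow_neg, div_eq_mul_inv]
      simp only [ha]
      ring
  have h2re : (1 : ℝ) < ((2 : ℝ) : ℂ).re := by rw [ofReal_re]; norm_num
  have hop : IsOpen {s : ℂ | 1 < s.re} := isOpen_lt continuous_const continuous_re
  have hkey := landau hdf (c := 2) (D := LSeries a) ?_ ?_ ?_
    (fun k => LSeries.iteratedDeriv_alternating ha0 habs k) (y := -2) (by norm_num)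
  · apply hkey
    simp only [hf]
    push_cast
    rw [hG₁0, zero_mul]
  · exact LSeries_analyticOnNhd a (2 : ℝ) (by simpa using habs)
  · rw [hfs _ h2re]
    exact mul_ne_zero (hn1 _ h2re) (hn2 _ h2re)
  · filter_upwards [hop.mem_nhds h2re] with z hz
    have hz' : 1 < z.re := hz
    have heq : f =ᶠ[𝓝 z] fun w => LI (ab η) w * LI η w := by
      filter_upwards [hop.mem_nhds hz'] with w hw
      exact hfs w hw
    have hd := ((hd1 z hz').hasDerivAt.mul (hd2 z hz').hasDerivAt).deriv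
    have hd' : deriv f z = deriv (LI (ab η)) z * LI η z + LI (ab η) z * deriv (LI η) z := by
      rw [heq.deriv_eq, ← hd]
      rfl
    rw [hd', hfs z hz', hDval z hz']
    have n1 := hn1 z hz'
    have n2 := hn2 z hz'
    field_simp
    ring

/-- **Non-vanishing at `s = 1`** -/
theorem nv_one (hD : StDirK) {η : Ideal (𝓞 K) →*₀ ℂ} (h : NVBase η)
    (hsq : (∀ 𝔞, sq η 𝔞 = ab η 𝔞) ∨ ∃ F₂ : ℂ → ℂ, AnalyticAt ℂ F₂ 1 ∧
      ∀ᶠ s in 𝓝 (1 : ℂ), 1 < s.re → F₂ s = LI (sq η) s)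
    {F : ℂ → ℂ} (hF : AnalyticAt ℂ F 1) (hFL : ∀ᶠ s in 𝓝 (1 : ℂ), 1 < s.re → F s = LI η s) :
    F 1 ≠ 0 := by
  rcases hsq with h1 | ⟨F₂, hF₂, hFL₂⟩
  · exact landau_case hD h h1 hF hFL
  · have h2 : (1 : ℂ) + ((0 : ℝ) : ℂ) * I = 1 := by simp
    have h3 := order_le hD h (t := 0) (F := F) (by rw [h2]; exact hF) (by rw [h2]; exact hFL)
      hF₂ (by
        filter_upwards [hFL₂] with s hs hs1
        rw [LI_sq_sh, hs hs1]
        simp)
    rwa [h2] at h3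

/-- **Non-vanishing on the line `Re s = 1`** -/
theorem nv (hD : StDirK) {η : Ideal (𝓞 K) →*₀ ℂ} (h : NVData η) {s₀ : ℂ} (hs₀ : s₀.re = 1)
    {F : ℂ → ℂ} (hF : AnalyticAt ℂ F s₀) (hFL : ∀ᶠ s in 𝓝 s₀, 1 < s.re → F s = LI η s) :
    F s₀ ≠ 0 := by
  obtain ⟨t, rfl⟩ : ∃ t : ℝ, s₀ = 1 + (t : ℂ) * I := ⟨s₀.im, by
    apply Complex.ext <;> simp [hs₀]⟩
  by_cases ht : t = 0
  · subst ht
    rcases h.psq' with h1 | ⟨G, hG, hGs⟩
    · have h2 : (1 : ℂ) + ((0 : ℝ) : ℂ) * I = 1 := by simp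
      rw [h2] at hF hFL ⊢
      exact landau_case hD h.base h1 hF hFL
    · refine order_le hD h.base hF hFL (F₂ := G) (hG.analyticAt 1) ?_
      refine Eventually.of_forall fun s hs => ?_
      rw [LI_sq_sh, hGs s hs]
      simp
  · obtain ⟨G, hG, hGs⟩ := h.psq
    refine order_le hD h.base hF hFL
      (F₂ := fun s => G (s + ((2 * t : ℝ) : ℂ) * I) / (s + ((2 * t : ℝ) : ℂ) * I - 1)) ?_ ?_
    · have h1 : AnalyticAt ℂ (fun s : ℂ => s + ((2 * t : ℝ) : ℂ) * I) 1 := by fun_prop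
      refine AnalyticAt.div ((hG.analyticAt _).comp_of_eq h1 rfl) (h1.sub analyticAt_const) ?_
      intro h2
      have h3 := congrArg Complex.im h2
      simp at h3
      exact ht h3
    · refine Eventually.of_forall fun s hs => ?_
      have h3 : 1 < (s + ((2 * t : ℝ) : ℂ) * I).re := by simpa using hs
      have h4 : s + ((2 * t : ℝ) : ℂ) * I - 1 ≠ 0 := by
        intro h5
        have h6 : s + ((2 * t : ℝ) : ℂ) * I = 1 := by linear_combination h5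
        rw [h6] at h3
        simp at h3
      rw [LI_sq_sh, hGs _ h3, mul_div_cancel_left₀ _ h4]

end Pool.Agent.Y772.NV
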